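import Pool.Agent.H28.Welsh.Final

/-!
Every finite simple matroid of rank three is, up to isomorphism, a restriction of the matroid of
a finite projective plane.
-/

set_option autoImplicit false

open scoped Matroid

namespace Pool.Agent.Results.MP_dda740_co.RankThreeInPlane

universe u v w

/-- A projective plane with points `P` and lines `L`: an incidence relation such that two
distinct points lie on exactly one common line, two distinct lines have exactly one common point,
and there are four points of which no three lie on a common line. -/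
structure ProjPlane (P : Type u) (L : Type v) where
  /-- `inc p l` : the point `p` lies on the line `l` -/
  inc : P → L → Prop
  line_through : ∀ p q : P, p ≠ q → ∃! l : L, inc p l ∧ inc q l
  common_point : ∀ l m : L, l ≠ m → ∃! p : P, inc p l ∧ inc p m
  quadrangle : ∃ a : Fin 4 → P, Function.Injective a ∧
    ∀ i j k : Fin 4, i ≠ j → i ≠ k → j ≠ k → ¬ ∃ l : L, inc (a i) l ∧ inc (a j) l ∧ inc (a k) l

/-- A set of points is independent if it has at most three elements and does not consist of three
points on a common line. -/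
def ProjPlane.Indep {P : Type u} {L : Type v} (S : ProjPlane P L) (X : Set P) : Prop :=
  X.encard ≤ 3 ∧ ¬ (X.encard = 3 ∧ ∃ l : L, ∀ p ∈ X, S.inc p l)

theorem ProjPlane.indep_subset {P : Type u} {L : Type v} (S : ProjPlane P L) :
    ∀ ⦃I J : Set P⦄, S.Indep J → I ⊆ J → S.Indep I := by
  intro I J hJ hIJ
  refine ⟨(Set.encard_le_encard hIJ).trans hJ.1, ?_⟩
  rintro ⟨h3, l, hl⟩
  have hfin : J.Finite := Set.finite_of_encard_le_coe (k := 3) hJ.1
  have hEq : I = J := by
    refine (hfin.subset hIJ).eq_of_subset_of_encard_le hIJ ?_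
    rw [h3]
    exact hJ.1
  exact hJ.2 ⟨hEq ▸ h3, l, hEq ▸ hl⟩

theorem ProjPlane.indep_of_le_two {P : Type u} {L : Type v} (S : ProjPlane P L) {X : Set P}
    (h : X.encard ≤ 2) : S.Indep X := by
  refine ⟨h.trans (by norm_num), ?_⟩
  rintro ⟨h3, -⟩
  rw [h3] at h
  exact absurd h (by norm_num)

theorem ProjPlane.indep_aug {P : Type u} {L : Type v} (S : ProjPlane P L) :
    ∀ ⦃I J : Set P⦄, S.Indep I → S.Indep J → I.encard < J.encard →
      ∃ e ∈ J, e ∉ I ∧ S.Indep (insert e I) := by
  intro I J hI hJ hlt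
  have hnot : ¬ J ⊆ I := fun h => absurd (Set.encard_le_encard h) (not_le.mpr hlt)
  obtain ⟨e, heJ, heI⟩ := Set.not_subset.mp hnot
  have hlt3 : I.encard < 3 := hlt.trans_le hJ.1
  by_cases h1 : I.encard ≤ 1
  · refine ⟨e, heJ, heI, S.indep_of_le_two ?_⟩
    rw [Set.encard_insert_of_notMem heI]
    calc I.encard + 1 ≤ 1 + 1 := by gcongr
      _ = 2 := by norm_num
  · have h2 : I.encard = 2 := by
      have ha : I.encard ≤ 2 := by
        have : I.encard < 2 + 1 := by
          calc I.encard < 3 := hlt3
            _ = 2 + 1 := by norm_num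
        exact Order.le_of_lt_add_one this
      have hb : (2 : ℕ∞) ≤ I.encard := by
        have := Order.add_one_le_of_lt (not_le.mp h1)
        calc (2 : ℕ∞) = 1 + 1 := by norm_num
          _ ≤ I.encard := this
      exact le_antisymm ha hb
    have h3 : J.encard = 3 := by
      refine le_antisymm hJ.1 ?_
      have := Order.add_one_le_of_lt hlt
      rw [h2] at this
      calc (3 : ℕ∞) = 2 + 1 := by norm_num
        _ ≤ J.encard := this
    obtain ⟨p, q, hpq, rfl⟩ := Set.encard_eq_two.mp h2
    obtain ⟨l, ⟨hpl, hql⟩, hun⟩ := S.line_through p q hpq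
    have hex : ∃ f ∈ J, ¬ S.inc f l := by
      by_contra hcon
      push Not at hcon
      exact hJ.2 ⟨h3, l, hcon⟩
    obtain ⟨f, hfJ, hfl⟩ := hex
    have hfI : f ∉ ({p, q} : Set P) := by
      intro hf
      rcases hf with rfl | hf
      · exact hfl hpl
      · rw [Set.mem_singleton_iff] at hf
        exact hfl (hf ▸ hql)
    refine ⟨f, hfJ, hfI, ?_, ?_⟩
    · rw [Set.encard_insert_of_notMem hfI, h2]
      norm_num
    · rintro ⟨-, m, hm⟩
      have hpm : S.inc p m := hm p (by simp)
      have hqm : S.inc q m := hm q (by simp)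
      have := hun m ⟨hpm, hqm⟩
      exact hfl (this ▸ hm f (by simp))

/-- The matroid of a projective plane: its ground set is the set of all points, and its
independent sets are the sets of `ProjPlane.Indep`. -/
def ProjPlane.matroid {P : Type u} {L : Type v} (S : ProjPlane P L) : Matroid P :=
  (IndepMatroid.ofBddAugment (E := Set.univ) (Indep := S.Indep)
    (indep_empty := S.indep_of_le_two (by simp))
    (indep_subset := S.indep_subset) (indep_aug := S.indep_aug)
    (indep_bdd := ⟨3, fun _ h => h.1⟩)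
    (subset_ground := fun _ _ => Set.subset_univ _)).matroid

theorem ProjPlane.matroid_E {P : Type u} {L : Type v} (S : ProjPlane P L) :
    S.matroid.E = Set.univ := rfl

theorem ProjPlane.matroid_indep {P : Type u} {L : Type v} (S : ProjPlane P L) (X : Set P) :
    S.matroid.Indep X ↔ (X.encard ≤ 3 ∧ ¬ (X.encard = 3 ∧ ∃ l : L, ∀ p ∈ X, S.inc p l)) := Iff.rfl

/-- Two matroids are isomorphic if there is a bijection between their ground sets under which
independent sets correspond to independent sets. -/
def Isomorphic {α : Type u} {β : Type v} (M : Matroid α) (N : Matroid β) : Prop :=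
  ∃ f : M.E ≃ N.E, ∀ I : Set M.E,
    M.Indep (Subtype.val '' I) ↔ N.Indep (Subtype.val '' (f '' I))

/-- A matroid is simple if it has no loop and no circuit with two elements. -/
def IsSimple {α : Type u} (M : Matroid α) : Prop :=
  (∀ e, ¬ M.IsLoop e) ∧ ∀ C, M.IsCircuit C → C.encard ≠ 2

theorem IsSimple.indep_pair {α : Type u} {M : Matroid α} (h : IsSimple M) :
    ∀ e ∈ M.E, ∀ f ∈ M.E, M.Indep {e, f} := by
  intro e he f hf
  have hE : ({e, f} : Set α) ⊆ M.E := by
    intro t ht
    simp only [Set.mem_insert_iff, Set.mem_singleton_iff] at ht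
    rcases ht with rfl | rfl <;> assumption
  by_contra hcon
  obtain ⟨C, hCef, hC⟩ := ((Matroid.not_indep_iff hE).mp hcon).exists_isCircuit_subset
  have hne := hC.nonempty
  have hle : C.encard ≤ 2 := by
    refine (Set.encard_le_encard hCef).trans ?_
    have h0 := Set.encard_insert_le ({f} : Set α) e
    rw [Set.encard_singleton] at h0
    exact h0.trans (by norm_num)
  have h2 := h.2 C hC
  have h1 : C.encard ≠ 1 := by
    intro h1
    obtain ⟨x, rfl⟩ := Set.encard_eq_one.mp h1
    exact h.1 x (Matroid.singleton_isCircuit.mp hC)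
  have hfin : C.Finite := Set.finite_of_encard_le_coe (k := 2) hle
  have h0 : C.encard ≠ 0 := by
    intro h0
    exact hne.ne_empty (Set.encard_eq_zero.mp h0)
  rw [← hfin.cast_ncard_eq] at hle h2 h1 h0
  have a1 : C.ncard ≤ 2 := by exact_mod_cast hle
  have a2 : C.ncard ≠ 2 := by exact_mod_cast h2
  have a3 : C.ncard ≠ 1 := by exact_mod_cast h1
  have a4 : C.ncard ≠ 0 := by exact_mod_cast h0
  omega

/-- On every line of a finite projective plane there are two points different from a given
point. -/
theorem two_more {P L : Type} [Membership P L] [Finite P] [Finite L]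
    [Configuration.ProjectivePlane P L] (l : L) (o : P) :
    ∃ a b : P, a ∈ l ∧ b ∈ l ∧ a ≠ o ∧ b ≠ o ∧ a ≠ b := by
  have h := Configuration.ProjectivePlane.two_lt_pointCount P l
  have h1 : Configuration.pointCount P l = ({p : P | p ∈ l} : Set P).ncard := rfl
  rw [h1] at h
  have h2 : 1 < (({p : P | p ∈ l} : Set P) \ {o}).ncard := by
    have := Set.ncard_le_ncard_sdiff_add_ncard ({p : P | p ∈ l} : Set P) {o} (Set.finite_singleton o)
    rw [Set.ncard_singleton] at this
    omega
  rw [Set.one_lt_ncard] at h2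
  obtain ⟨a, ha, b, hb, hab⟩ := h2
  exact ⟨a, b, ha.1, hb.1, ha.2, hb.2, hab⟩

theorem quad {P L : Type} [Membership P L] [Finite P] [Finite L]
    [h : Configuration.ProjectivePlane P L] : ∃ a : Fin 4 → P, Function.Injective a ∧
    ∀ i j k : Fin 4, i ≠ j → i ≠ k → j ≠ k →
      ¬ ∃ l : L, a i ∈ l ∧ a j ∈ l ∧ a k ∈ l := by
  obtain ⟨_, p, q, _, l, m, -, -, -, hpl, hpm, -, hql, hqm⟩ := h.exists_config
  have hlm : l ≠ m := by
    rintro rfl
    exact hqm hql
  obtain ⟨a, b, hal, hbl, hap, hbp, hab⟩ := two_more l p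
  obtain ⟨c, d, hcm, hdm, hcp, hdp, hcd⟩ := two_more m p
  have key : ∀ x, x ∈ l → x ∈ m → x = p := fun x hx hx' =>
    (h.eq_or_eq hx hpl hx' hpm).resolve_right hlm
  have hcl : c ∉ l := fun h1 => hcp (key c h1 hcm)
  have hdl : d ∉ l := fun h1 => hdp (key d h1 hdm)
  have ham : a ∉ m := fun h1 => hap (key a hal h1)
  have hbm : b ∉ m := fun h1 => hbp (key b hbl h1)
  have e1 : ∀ x : L, a ∈ x → b ∈ x → x = l := fun x h1 h2 =>
    (h.eq_or_eq h1 h2 hal hbl).resolve_left hab
  have e2 : ∀ x : L, c ∈ x → d ∈ x → x = m := fun x h1 h2 =>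
    (h.eq_or_eq h1 h2 hcm hdm).resolve_left hcd
  have hac : a ≠ c := by rintro rfl; exact hcl hal
  have had : a ≠ d := by rintro rfl; exact hdl hal
  have hbc : b ≠ c := by rintro rfl; exact hcl hbl
  have hbd : b ≠ d := by rintro rfl; exact hdl hbl
  have t1 : ∀ x : L, a ∈ x → b ∈ x → c ∉ x := fun x h1 h2 h3 => hcl (e1 x h1 h2 ▸ h3)
  have t2 : ∀ x : L, a ∈ x → b ∈ x → d ∉ x := fun x h1 h2 h3 => hdl (e1 x h1 h2 ▸ h3)
  have t3 : ∀ x : L, c ∈ x → d ∈ x → a ∉ x := fun x h1 h2 h3 => ham (e2 x h1 h2 ▸ h3)
  have t4 : ∀ x : L, c ∈ x → d ∈ x → b ∉ x := fun x h1 h2 h3 => hbm (e2 x h1 h2 ▸ h3)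
  refine ⟨![a, b, c, d], ?_, ?_⟩
  · intro i j hij
    fin_cases i <;> fin_cases j <;> simp_all
  · intro i j k hij hik hjk
    rintro ⟨x, h1, h2, h3⟩
    fin_cases i <;> fin_cases j <;> fin_cases k <;>
      simp only [ne_eq, not_true_eq_false, Fin.mk_zero, Fin.mk_one, Fin.isValue, Fin.reduceFinMk,
        Matrix.cons_val_zero, Matrix.cons_val_one, Matrix.cons_val] at hij hik hjk h1 h2 h3 <;>
      first
        | exact t1 x (by assumption) (by assumption) (by assumption)
        | exact t2 x (by assumption) (by assumption) (by assumption)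
        | exact t3 x (by assumption) (by assumption) (by assumption)
        | exact t4 x (by assumption) (by assumption) (by assumption)

/-- A finite projective plane of Mathlib as a projective plane in our sense. -/
def ofMathlib {P L : Type} [Membership P L] [Finite P] [Finite L]
    (h : Configuration.ProjectivePlane P L) : ProjPlane P L where
  inc p l := p ∈ l
  line_through p q hpq := by
    refine ⟨h.mkLine hpq, h.mkLine_ax hpq, ?_⟩
    intro l hl
    exact ((h.eq_or_eq hl.1 hl.2 (h.mkLine_ax hpq).1 (h.mkLine_ax hpq).2).resolve_left hpq)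
  common_point l m hlm := by
    refine ⟨h.mkPoint hlm, h.mkPoint_ax hlm, ?_⟩
    intro p hp
    exact ((h.eq_or_eq hp.1 (h.mkPoint_ax hlm).1 hp.2 (h.mkPoint_ax hlm).2).resolve_right hlm)
  quadrangle := quad

/-- Every finite simple matroid of rank three is isomorphic to a restriction of the matroid of a
finite projective plane. -/
theorem result {α : Type u} (M : Matroid α) (hfin : M.E.Finite) (hsimple : IsSimple M)
    (hrank : M.eRank = 3) :
    ∃ (P L : Type) (S : ProjPlane P L) (X : Set P),
      Finite P ∧ Finite L ∧ Isomorphic M (S.matroid ↾ X) := by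
  classical
  have hfE : Finite M.E := hfin
  obtain ⟨n, ⟨g⟩⟩ := Finite.exists_equiv_fin M.E
  let N : Matroid (Fin n) := (M.restrictSubtype M.E).mapEquiv g
  have hNE : N.E = Set.univ := by
    show g '' (M.restrictSubtype M.E).E = Set.univ
    rw [Matroid.restrictSubtype_ground, Set.image_univ, g.range_eq_univ]
  have hNI : ∀ I : Set (Fin n), N.Indep I ↔ M.Indep (Subtype.val '' (g.symm '' I)) := by
    intro I
    show ((M.restrictSubtype M.E).mapEquiv g).Indep I ↔ _
    rw [Matroid.mapEquiv_indep_iff, Matroid.restrictSubtype_indep_iff]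
  have hNfin : N.Finite := ⟨Set.toFinite _⟩
  have hNrank : N.eRank = 3 := by
    obtain ⟨B, hB⟩ := N.exists_isBase
    have h1 : M.IsBase (Subtype.val '' (g.symm '' B)) := by
      have h2 : ((M.restrictSubtype M.E).mapEquiv g).IsBase B := hB
      rw [Matroid.mapEquiv_isBase_iff, Matroid.restrictSubtype_ground_isBase_iff] at h2
      exact h2
    rw [← hB.encard_eq_eRank, ← hrank, ← h1.encard_eq_eRank,
      Subtype.val_injective.encard_image, g.symm.injective.encard_image]
  have hpair := hsimple.indep_pair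
  have hNs : ∀ e ∈ N.E, ∀ f ∈ N.E, N.Indep {e, f} := by
    intro e _ f _
    rw [hNI, Set.image_pair, Set.image_pair]
    exact hpair _ (g.symm e).2 _ (g.symm f).2
  obtain ⟨P, L, _, _, _, hP, φ, hφ, hind⟩ :=
    Pool.Agent.H28.Welsh.welsh (Fin n) N hNfin hNrank hNs
  rw [hNE] at hφ
  have hinj : Function.Injective φ := Set.injOn_univ.mp hφ
  refine ⟨P, L, ofMathlib hP, Set.range φ, inferInstance, inferInstance, ?_⟩
  let f : M.E ≃ Set.range φ := g.trans (Equiv.ofInjective φ hinj)
  refine ⟨f, ?_⟩
  intro I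
  have hf : Subtype.val '' (f '' I) = φ '' (g '' I) := by
    rw [← Set.image_comp, ← Set.image_comp]
    rfl
  have hMI : M.Indep (Subtype.val '' I) ↔ N.Indep (g '' I) := by
    rw [hNI, ← Set.image_comp g.symm g, g.symm_comp_self, Set.image_id]
  have hR : ((ofMathlib hP).matroid ↾ Set.range φ).Indep (Subtype.val '' (f '' I)) ↔
      (ofMathlib hP).matroid.Indep (φ '' (g '' I)) := by
    rw [hf, Matroid.restrict_indep_iff]
    exact ⟨fun h => h.1, fun h => ⟨h, Set.image_subset_range _ _⟩⟩
  rw [hMI]
  refine Iff.trans ?_ hR.symm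
  rw [hind _ (by rw [hNE]; exact Set.subset_univ _), ProjPlane.matroid_indep,
    hinj.encard_image]
  have hset : ∀ l : L, (∀ p ∈ φ '' (g '' I), (ofMathlib hP).inc p l) ↔
      ∀ x ∈ g '' I, φ x ∈ l := by
    intro l
    constructor
    · intro h x hx
      exact h _ ⟨x, hx, rfl⟩
    · rintro h p ⟨x, hx, rfl⟩
      exact h x hx
  simp only [hset]
  generalize g '' I = J
  constructor
  · rintro (h2 | ⟨h3, hl⟩)
    · refine ⟨h2.trans (by norm_num), ?_⟩
      rintro ⟨h3, -⟩
      rw [h3] at h2
      exact absurd h2 (by norm_num)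
    · refine ⟨h3.le, ?_⟩
      rintro ⟨-, l, hl'⟩
      exact hl l hl'
  · rintro ⟨h3, hl⟩
    by_cases he : J.encard = 3
    · right
      refine ⟨he, fun l hl' => hl ⟨he, l, hl'⟩⟩
    · left
      have hlt : J.encard < 2 + 1 := by
        calc J.encard < 3 := lt_of_le_of_ne h3 he
          _ = 2 + 1 := by norm_num
      exact Order.le_of_lt_add_one hlt

end Pool.Agent.Results.MP_dda740_co.RankThreeInPlane
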